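import Mathlib
import Pool.Agent.Q2.CS2.Stm

/-!
# Project CAS (helper2), job 10 (helper220)
-/

set_option autoImplicit false

namespace Q220.CS2_10

open Q2.CS2

/-- the class `(-1, ∅)` -/
def h0 : E := ⟨(-1, ∅), by simp⟩

lemma pi_iff (x y : V) : Pi x y = h0 ↔
    y.1.1 = x.1.1 - 1 ∧ ∀ i, i ∈ y.1.2 ↔ (i ∈ x.1.2 ∧ i < y.1.1) := by
  constructor
  · intro h
    have h1 := congrArg Subtype.val h
    have h2 : y.1.1 - x.1.1 = -1 := congrArg Prod.fst h1
    have h3 : ((symmDiff x.1.2 y.1.2).filter (fun i => i < x.1.1 ∧ i < y.1.1)).image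
      (fun i => i - x.1.1) = ∅ := congrArg Prod.snd h1
    rw [Finset.image_eq_empty, Finset.filter_eq_empty_iff] at h3
    refine ⟨by omega, fun i => ⟨fun hi => ?_, fun hi => ?_⟩⟩
    · have hiy := y.2 i hi
      refine ⟨?_, hiy⟩
      by_contra hx
      exact h3 (Finset.mem_symmDiff.2 (Or.inr ⟨hi, hx⟩)) ⟨by omega, hiy⟩
    · by_contra hy
      exact h3 (Finset.mem_symmDiff.2 (Or.inl ⟨hi.1, hy⟩)) ⟨by omega, hi.2⟩
  · rintro ⟨h1, h2⟩
    apply Subtype.ext
    refine Prod.ext (show y.1.1 - x.1.1 = -1 by omega) ?_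
    show ((symmDiff x.1.2 y.1.2).filter (fun i => i < x.1.1 ∧ i < y.1.1)).image
      (fun i => i - x.1.1) = ∅
    rw [Finset.image_eq_empty, Finset.filter_eq_empty_iff]
    intro i hi hlt
    rw [Finset.mem_symmDiff, h2 i] at hi
    tauto

lemma uniq {x y y' : V} (h : Pi x y = h0) (h' : Pi x y' = h0) : y' = y := by
  rw [pi_iff] at h h'
  have h1 : y'.1.1 = y.1.1 := by omega
  apply Subtype.ext
  refine Prod.ext h1 ?_
  ext i
  rw [h.2, h'.2, h1]

theorem j10 : S_10 := by
  classical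
  intro K' H w w' d hC hw hsym hT
  have hone : ∀ x y : V, Pi x y = h0 → K' x h0 y = 1 := by
    intro x y hxy
    have h1 := hC.sum x h0
    rw [finsum_eq_single _ y fun y' hy' => ?_] at h1
    · exact h1
    · by_contra hne
      exact hy' (uniq hxy ((hC.part x h0 y').1 hne))
  have hd : ∀ x y : V, Pi x y = h0 → w y = d h0 := by
    intro x y hxy
    have h1 := hT x y
    rw [hxy, hone x y hxy, mul_one] at h1
    exact h1.symm
  have hbar : ∀ x y z : V, Pi x y = h0 → Pi z x = h0 → K' y (H.bar h0) x = 1 := by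
    intro x y z hxy hzx
    have h1 := hsym h0 y x
    rw [hone x y hxy, mul_one, hd x y hxy, hd z x hzx] at h1
    have h2 : 0 < d h0 := by
      rw [← hd x y hxy]
      exact hw y
    have h3 : d h0 * K' y (H.bar h0) x = d h0 * 1 := by rw [h1, mul_one]
    exact mul_left_cancel₀ h2.ne' h3
  -- the points
  let v : V := ⟨(0, ∅), by simp⟩
  let x1 : V := ⟨(1, ∅), by simp⟩
  let x2 : V := ⟨(1, {0}), by simp⟩
  let z1 : V := ⟨(2, ∅), by simp⟩
  let z2 : V := ⟨(2, {0}), by simp⟩
  have e1 : Pi x1 v = h0 := by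
    rw [pi_iff]
    refine ⟨by simp [x1, v], fun i => ?_⟩
    simp [x1, v]
  have e2 : Pi x2 v = h0 := by
    rw [pi_iff]
    refine ⟨by simp [x2, v], fun i => ?_⟩
    simp only [x2, v, Finset.notMem_empty, Finset.mem_singleton, false_iff]
    omega
  have f1 : Pi z1 x1 = h0 := by
    rw [pi_iff]
    refine ⟨by simp [x1, z1], fun i => ?_⟩
    simp [x1, z1]
  have f2 : Pi z2 x2 = h0 := by
    rw [pi_iff]
    refine ⟨by simp [x2, z2], fun i => ?_⟩
    simp only [x2, z2, Finset.mem_singleton]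
    omega
  have g1 := hbar x1 v z1 e1 f1
  have g2 := hbar x2 v z2 e2 f2
  have hne : x1 ≠ x2 := by
    intro h
    have h1 := congrArg Prod.snd (congrArg Subtype.val h)
    have h2 : (∅ : Finset ℤ) = {0} := h1
    exact Finset.singleton_ne_empty (0 : ℤ) h2.symm
  have hs := hC.sum v (H.bar h0)
  have hle : ∑ y ∈ ({x1, x2} : Finset V), K' v (H.bar h0) y ≤ ∑ᶠ y, K' v (H.bar h0) y := by
    rw [finsum_eq_sum_of_support_subset_of_finite _ (subset_refl _) (hC.fin v (H.bar h0))]
    refine Finset.sum_le_sum_of_subset_of_nonneg ?_ fun y _ _ => hC.nonneg _ _ _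
    intro y hy
    rw [Set.Finite.mem_toFinset, Function.mem_support]
    rw [Finset.mem_insert, Finset.mem_singleton] at hy
    rcases hy with rfl | rfl
    · rw [g1]
      exact one_ne_zero
    · rw [g2]
      exact one_ne_zero
  rw [hs, Finset.sum_pair hne, g1, g2] at hle
  norm_num at hle

end Q220.CS2_10
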