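import Pool.Agent.Q201.AR.Stm2

/-!
Project AR (helper201), job PADK (helper220): computability of the restriction map.
-/

set_option autoImplicit false

namespace Q220.AR_PADK

open Q201.AR

theorem t_PADK : S_PADK := by
  intro n k h
  have hc : Primrec (Fin.castLE h) := Primrec.dom_finite _
  have hg : Primrec (fun (t : Fin k → ℕ) (l : Fin n) => t (Fin.castLE h l)) :=
    Primrec.fin_curry.2 (Primrec.fin_app.comp Primrec.fst (hc.comp Primrec.snd))
  exact hg.to_comp

end Q220.AR_PADK
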