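import Pool.Agent.Q201.AR.Stm3

set_option autoImplicit false

/-!
Project AR, part 3, job CD: codes of `Δ_0` formulas.
-/

open FirstOrder FirstOrder.Language Pool.Agent.Helper227.EN

namespace Q220.AR_CD

open Q201.AR

/-- the value of a term -/
def val {M : Type} [LA.Structure M] {n : ℕ} (t : Trm n) (e : ℕ → M) : M :=
  t.realize (Sum.elim (default : Empty → M) (fun i : Fin n => e i))

theorem val_congr {M : Type} [LA.Structure M] {n : ℕ} (t : Trm n) (e e' : ℕ → M)
    (h : ∀ i, i < n → e i = e' i) : val t e = val t e' := by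
  unfold val
  congr 1
  funext x
  rcases x with x | x
  · exact x.elim
  · exact h _ x.2

theorem add_zero' {M : Type} [LA.Structure M] (h : M ⊨ PAminus) (x : M) :
    Structure.funMap (L := LA) AF.add ![x, Structure.funMap (L := LA) AF.zero ![] ] = x := by
  have h1 : M ⊨ axAddZero := h.realize_of_mem axAddZero (by simp [PAminus])
  unfold axAddZero at h1
  rw [Sentence.Realize, Formula.Realize] at h1
  simp only [BoundedFormula.realize_all, BoundedFormula.realize_bdEqual, Term.realize_var,
    Sum.elim_inr, tadd, t0, Term.realize_functions_apply₂, Term.realize_constants] at h1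
  have h2 := h1 x
  have h3 : (Fin.snoc (default : Fin 0 → M) x : Fin 1 → M) 0 = x := rfl
  rw [h3] at h2
  have h4 : Structure.funMap (L := LA) AF.zero (default : Fin 0 → M) =
      Structure.funMap (L := LA) AF.zero ![] :=
    congrArg (Structure.funMap (L := LA) AF.zero) (Subsingleton.elim (default : Fin 0 → M) ![])
  rw [← h4]
  exact h2

/-- `c` evaluates the code `a` after a change of the assignment which puts the value `v e` into
`x_k` and does not change the variables below `k`. -/
def Ev (k a c : ℕ) (v : ∀ (M : Type) [LA.Structure M] (_ : ℕ → M), M) : Prop :=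
  ∀ (M : Type) [LA.Structure M] [Nonempty M], M ⊨ PAminus → ∀ e : ℕ → M,
    ∃ e' : ℕ → M, (∀ i, i < k → e' i = e i) ∧ e' k = v M e ∧ (Sat M c e ↔ Sat M a e')

theorem cand_B0 {a b : ℕ} (ha : B0 a) (hb : B0 b) : B0 (cand a b) :=
  B0.nor _ _ (B0.nor _ _ ha ha) (B0.nor _ _ hb hb)

theorem term_code {n : ℕ} (t : Trm n) : ∀ (k : ℕ), n ≤ k → ∀ a : ℕ, B0 a →
    ∃ c : ℕ, B0 c ∧ Ev k a c (fun M _ e => val t e) := by
  induction t with
  | var x =>
    rcases x with x | x
    · exact x.elim
    · intro k hk a ha
      refine ⟨cex (k + 1) (cand (cz (k + 1)) (cex k (cand (cad x (k + 1) k) a))), ?_, ?_⟩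
      · exact B0.fz _ _ (B0.fad _ _ _ _ (by have := x.2; omega) (by omega) ha)
      · intro M _ _ hM e
        refine ⟨Function.update (Function.update e (k + 1) (Structure.funMap (L := LA) AF.zero ![]))
          k (e x), ?_, ?_, ?_⟩
        · intro i hi
          rw [Function.update_of_ne (by omega), Function.update_of_ne (by omega)]
        · rw [Function.update_self]
          rfl
        · have hx := x.2
          rw [Sat_cex]
          simp only [Sat_cand, Sat_cz, Sat_cex, Sat_cad]
          constructor
          · rintro ⟨y, hy, z, hz, h⟩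
            rw [Function.update_self] at hy
            rw [Function.update_of_ne (by omega), Function.update_of_ne (by omega),
              Function.update_of_ne (by omega), Function.update_self, Function.update_self,
              ← hy, add_zero' hM] at hz
            rw [hy, hz]
            exact h
          · intro h
            refine ⟨Structure.funMap (L := LA) AF.zero ![], ?_, e x, ?_, h⟩
            · rw [Function.update_self]
            rw [Function.update_of_ne (by omega), Function.update_of_ne (by omega),
              Function.update_of_ne (by omega), Function.update_self, Function.update_self,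
              add_zero' hM]
  | @func l f ts ih =>
    intro k hk a ha
    cases f with
    | zero =>
      refine ⟨cex k (cand (cz k) a), B0.fz _ _ ha, ?_⟩
      intro M _ _ hM e
      refine ⟨Function.update e k (Structure.funMap (L := LA) AF.zero ![]), ?_, ?_, ?_⟩
      · intro i hi
        rw [Function.update_of_ne (by omega)]
      · rw [Function.update_self]
        exact congrArg _ (Subsingleton.elim _ _)
      · rw [Sat_cex]
        simp only [Sat_cand, Sat_cz, Function.update_self]
        constructor
        · rintro ⟨x, rfl, h⟩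
          exact h
        · intro h
          exact ⟨_, rfl, h⟩
    | one =>
      refine ⟨cex k (cand (co k) a), B0.fo _ _ ha, ?_⟩
      intro M _ _ hM e
      refine ⟨Function.update e k (Structure.funMap (L := LA) AF.one ![]), ?_, ?_, ?_⟩
      · intro i hi
        rw [Function.update_of_ne (by omega)]
      · rw [Function.update_self]
        exact congrArg _ (Subsingleton.elim _ _)
      · rw [Sat_cex]
        simp only [Sat_cand, Sat_co, Function.update_self]
        constructor
        · rintro ⟨x, rfl, h⟩
          exact h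
        · intro h
          exact ⟨_, rfl, h⟩
    | add =>
      obtain ⟨c2, hc2, h2⟩ := ih 1 (k + 2) (by omega)
        (cex k (cand (cad (k + 1) (k + 2) k) a)) (B0.fad _ _ _ _ (by omega) (by omega) ha)
      obtain ⟨c1, hc1, h1⟩ := ih 0 (k + 1) (by omega) c2 hc2
      refine ⟨c1, hc1, ?_⟩
      intro M _ _ hM e
      obtain ⟨e1, he1, hv1, hs1⟩ := h1 M hM e
      obtain ⟨e2, he2, hv2, hs2⟩ := h2 M hM e1
      have hw1 : e2 (k + 1) = val (ts 0) e := by rw [he2 _ (by omega), hv1]
      have hw2 : e2 (k + 2) = val (ts 1) e := by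
        rw [hv2]
        exact val_congr _ _ _ fun i hi => he1 i (by omega)
      refine ⟨Function.update e2 k (Structure.funMap (L := LA) AF.add
        ![val (ts 0) e, val (ts 1) e]), ?_, ?_, ?_⟩
      · intro i hi
        rw [Function.update_of_ne (by omega), he2 _ (by omega), he1 _ (by omega)]
      · rw [Function.update_self]
        refine congrArg _ ?_
        funext i
        fin_cases i <;> rfl
      · rw [hs1, hs2, Sat_cex]
        simp only [Sat_cand, Sat_cad, Function.update_self]
        have h3 : ∀ x : M, Function.update e2 k x (k + 1) = val (ts 0) e := fun x => by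
          rw [Function.update_of_ne (by omega), hw1]
        have h4 : ∀ x : M, Function.update e2 k x (k + 2) = val (ts 1) e := fun x => by
          rw [Function.update_of_ne (by omega), hw2]
        simp only [h3, h4]
        constructor
        · rintro ⟨x, rfl, h⟩
          exact h
        · intro h
          exact ⟨_, rfl, h⟩
    | mul =>
      obtain ⟨c2, hc2, h2⟩ := ih 1 (k + 2) (by omega)
        (cex k (cand (cml (k + 1) (k + 2) k) a)) (B0.fml _ _ _ _ (by omega) (by omega) ha)
      obtain ⟨c1, hc1, h1⟩ := ih 0 (k + 1) (by omega) c2 hc2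
      refine ⟨c1, hc1, ?_⟩
      intro M _ _ hM e
      obtain ⟨e1, he1, hv1, hs1⟩ := h1 M hM e
      obtain ⟨e2, he2, hv2, hs2⟩ := h2 M hM e1
      have hw1 : e2 (k + 1) = val (ts 0) e := by rw [he2 _ (by omega), hv1]
      have hw2 : e2 (k + 2) = val (ts 1) e := by
        rw [hv2]
        exact val_congr _ _ _ fun i hi => he1 i (by omega)
      refine ⟨Function.update e2 k (Structure.funMap (L := LA) AF.mul
        ![val (ts 0) e, val (ts 1) e]), ?_, ?_, ?_⟩
      · intro i hi
        rw [Function.update_of_ne (by omega), he2 _ (by omega), he1 _ (by omega)]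
      · rw [Function.update_self]
        refine congrArg _ ?_
        funext i
        fin_cases i <;> rfl
      · rw [hs1, hs2, Sat_cex]
        simp only [Sat_cand, Sat_cml, Function.update_self]
        have h3 : ∀ x : M, Function.update e2 k x (k + 1) = val (ts 0) e := fun x => by
          rw [Function.update_of_ne (by omega), hw1]
        have h4 : ∀ x : M, Function.update e2 k x (k + 2) = val (ts 1) e := fun x => by
          rw [Function.update_of_ne (by omega), hw2]
        simp only [h3, h4]
        constructor
        · rintro ⟨x, rfl, h⟩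
          exact h
        · intro h
          exact ⟨_, rfl, h⟩

/-- two values -/
theorem two_terms {n : ℕ} (s t : Trm n) (a : ℕ) (ha : B0 a) : ∃ c : ℕ, B0 c ∧
    ∀ (M : Type) [LA.Structure M] [Nonempty M], M ⊨ PAminus → ∀ e : ℕ → M,
      ∃ e' : ℕ → M, e' n = val s e ∧ e' (n + 1) = val t e ∧ (Sat M c e ↔ Sat M a e') := by
  obtain ⟨c2, hc2, h2⟩ := term_code t (n + 1) (by omega) a ha
  obtain ⟨c1, hc1, h1⟩ := term_code s n le_rfl c2 hc2
  refine ⟨c1, hc1, ?_⟩
  intro M _ _ hM e
  obtain ⟨e1, he1, hv1, hs1⟩ := h1 M hM e
  obtain ⟨e2, he2, hv2, hs2⟩ := h2 M hM e1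
  refine ⟨e2, ?_, ?_, ?_⟩
  · rw [he2 _ (by omega), hv1]
  · rw [hv2]
    exact val_congr _ _ _ fun i hi => he1 i (by omega)
  · rw [hs1, hs2]

theorem t_CD : S_CD := by
  intro n φ hφ
  induction hφ with
  | @falsum n =>
    refine ⟨cnor (ceq 0 0) (ceq 0 0), B0.nor _ _ (B0.atom _ (by unfold ceq; omega))
      (B0.atom _ (by unfold ceq; omega)), ?_⟩
    intro M _ _ hM e
    rw [Sat_cnor, Sat_ceq]
    simp
  | @eq n s t =>
    obtain ⟨c, hc, h⟩ := two_terms s t (ceq n (n + 1)) (B0.atom _ (by unfold ceq; omega))
    refine ⟨c, hc, ?_⟩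
    intro M _ _ hM e
    obtain ⟨e', h1, h2, h3⟩ := h M hM e
    rw [h3, Sat_ceq, h1, h2, BoundedFormula.realize_bdEqual]
    rfl
  | @lt n s t =>
    obtain ⟨c, hc, h⟩ := two_terms s t (clt n (n + 1)) (B0.atom _ (by unfold clt; omega))
    refine ⟨c, hc, ?_⟩
    intro M _ _ hM e
    obtain ⟨e', h1, h2, h3⟩ := h M hM e
    rw [h3, Sat_clt, h1, h2]
    unfold ltF
    rw [BoundedFormula.realize_rel₂]
    rfl
  | @imp n φ ψ _ _ ih1 ih2 =>
    obtain ⟨c1, hc1, h1⟩ := ih1
    obtain ⟨c2, hc2, h2⟩ := ih2
    refine ⟨cneg (cnor (cneg c1) c2), B0.nor _ _ (B0.nor _ _ (B0.nor _ _ hc1 hc1) hc2)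
      (B0.nor _ _ (B0.nor _ _ hc1 hc1) hc2), ?_⟩
    intro M _ _ hM e
    rw [Sat_cneg, Sat_cnor, Sat_cneg, h1 M hM e, h2 M hM e, BoundedFormula.realize_imp]
    tauto
  | @ball n t φ _ ih =>
    obtain ⟨c1, hc1, h1⟩ := ih
    have hB : B0 (cneg (cex n (cand (clt n (n + 1)) (cneg c1)))) :=
      B0.nor _ _ (B0.bex _ _ _ (by omega) (B0.nor _ _ hc1 hc1))
        (B0.bex _ _ _ (by omega) (B0.nor _ _ hc1 hc1))
    obtain ⟨c, hc, h⟩ := term_code t (n + 1) (by omega) _ hB
    refine ⟨c, hc, ?_⟩
    intro M _ _ hM e
    obtain ⟨e', he', hv, hs⟩ := h M hM e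
    rw [hs, Sat_cneg, Sat_cex, BoundedFormula.realize_all]
    simp only [Sat_cand, Sat_clt, Sat_cneg, h1 M hM, BoundedFormula.realize_imp]
    have hsn : ∀ x : M, (fun i : Fin (n + 1) => Function.update e' n x i) =
        (Fin.snoc (fun i : Fin n => e i) x : Fin (n + 1) → M) := by
      intro x
      funext i
      refine Fin.lastCases ?_ (fun j => ?_) i
      · simp
      · rw [Fin.snoc_castSucc]
        have := j.2
        rw [Fin.val_castSucc, Function.update_of_ne (by omega), he' _ (by omega)]
    have hlt : ∀ x : M, (ltF (lastT n) (liftT t)).Realize (default : Empty → M)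
        (Fin.snoc (fun i : Fin n => e i) x : Fin (n + 1) → M) ↔
        Structure.RelMap (L := LA) AR.lt ![x, val t e] := by
      intro x
      unfold ltF lastT liftT
      rw [BoundedFormula.realize_rel₂, Term.realize_var, Term.realize_relabel]
      have e1 : (Sum.elim (default : Empty → M) (Fin.snoc (fun i : Fin n => e i) x :
        Fin (n + 1) → M)) ∘ (Sum.map id Fin.castSucc) =
          Sum.elim (default : Empty → M) (fun i : Fin n => e i) := by
        funext y
        rcases y with y | y
        · exact y.elim
        · simp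
      rw [e1]
      have e2 : (Sum.elim (default : Empty → M) (Fin.snoc (fun i : Fin n => e i) x :
        Fin (n + 1) → M)) (Sum.inr (Fin.last n)) = x := by simp
      rw [e2]
      rfl
    simp only [hsn, hlt, Function.update_self]
    have h5 : ∀ x : M, Function.update e' n x (n + 1) = val t e := fun x => by
      rw [Function.update_of_ne (by omega), hv]
    simp only [h5, not_exists, not_and, not_not]

end Q220.AR_CD
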