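import Pool.Agent.Q82.CW.Stm

set_option autoImplicit false

/-! Project CW, job MAIN4. -/

open MeasureTheory Filter Topology Set
open scoped ContDiff

namespace Pool.Agent.Q82.CW

private theorem main4_coe (a b c : L2) (s : ℝ) :
    ((a + b + s • c : L2) : ℝ → ℝ) =ᵐ[volume] fun x => a x + b x + s * c x := by
  filter_upwards [Lp.coeFn_add (a + b) (s • c), Lp.coeFn_add a b, Lp.coeFn_smul s c] with x h1 h2 h3
  rw [h1, Pi.add_apply, h2, Pi.add_apply, h3, Pi.smul_apply, smul_eq_mul]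

private theorem main4_g (x : ℝ) (hx : x ∈ Icc (4 : ℝ) 6) : g x = 0 := by
  unfold g
  rw [if_neg]
  have h1 := Real.pi_lt_four
  rw [abs_of_pos (by linarith [hx.1])]
  linarith [hx.1]

theorem main4 (h1 : S_RED) (h2 : S_CON) (h3 : S_G) (h4 : S_BUMP) (h5 : S_IVT) : S_MAIN4 := by
  obtain ⟨p, v, hp, hv⟩ := h3
  refine ⟨p, v, hp, hv, ?_⟩
  intro U M _ hH ρ hρ
  obtain ⟨ρ', hρ', h6⟩ := h5 U M p v hH ρ hρ
  obtain ⟨d, δ, κ, hd, hδ, hκ, hd1, hd2⟩ := h4 ρ' hρ'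
  obtain ⟨s, hsM, hs⟩ := h6 d hd
  refine ⟨p + d + s • v, hsM, ?_, ?_⟩
  · have e : p + d + s • v - p = d + s • v := by abel
    rw [e]
    exact hs
  · intro γ hγ
    obtain ⟨w, b, c, hS, hw, hc⟩ := h1 _ γ hγ
    have k1 : (((p + d + s • v : X) : L2 × L2 × L2).1 : ℝ → ℝ) =ᵐ[volume]
        fun x => (p : L2 × L2 × L2).1 x + (d : L2 × L2 × L2).1 x + s * (v : L2 × L2 × L2).1 x :=
      main4_coe (p : L2 × L2 × L2).1 (d : L2 × L2 × L2).1 (v : L2 × L2 × L2).1 s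
    have k2 : (((p + d + s • v : X) : L2 × L2 × L2).2.2 : ℝ → ℝ) =ᵐ[volume]
        fun x => (p : L2 × L2 × L2).2.2 x + (d : L2 × L2 × L2).2.2 x +
          s * (v : L2 × L2 × L2).2.2 x :=
      main4_coe (p : L2 × L2 × L2).2.2 (d : L2 × L2 × L2).2.2 (v : L2 × L2 × L2).2.2 s
    refine h2 w b c hS δ κ ⟨hδ, hκ, ?_, ?_⟩
    · have h7 : w 0 =ᵐ[volume.restrict (Icc (4 : ℝ) 6)] fun _ => -δ := by
        rw [Filter.EventuallyEq, ae_restrict_iff' measurableSet_Icc]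
        filter_upwards [hw, k1, hp.1, hv.1, hd1] with x e1 e2 e3 e4 e5 hx
        rw [e1, e2, e3, e4, e5 hx, main4_g x hx]
        ring
      exact Measure.eqOn_Icc_of_ae_eq (μ := volume) (by norm_num) h7 (hS.cw 0 le_rfl).continuousOn
        continuousOn_const
    · filter_upwards [hc, k2, hp.2, hv.2, hd2] with x e1 e2 e3 e4 e5 hx
      rw [e1, e2, e3, e4, e5 hx, main4_g x hx]
      ring

end Pool.Agent.Q82.CW
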