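import Pool.Agent.Q61.MH.Stm2

set_option autoImplicit false

/-!
Project MH (MP_819a4a_pr), job SMALL.
-/

open Real

namespace Q220.MH_SMALL

open Pool.Agent.Q61.MH

theorem S_succ (k : ℕ) (r : ℝ) : S (k + 1) r = S k r + ((k : ℝ) + 1) ^ r := by
  unfold S
  rw [Finset.sum_range_succ]

theorem base_le (r : ℝ) (h0 : 0 < r) (h1 : r ≤ 1) (y : ℕ) :
    (y : ℝ) * (2 * (y : ℝ) + 1) ^ r ≤ S (2 * y) r := by
  have h2 : S (2 * y) r + S (2 * y) r =
      ∑ i ∈ Finset.range (2 * y), (((i : ℝ) + 1) ^ r + (((2 * y - 1 - i : ℕ) : ℝ) + 1) ^ r) := by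
    rw [Finset.sum_add_distrib, Finset.sum_range_reflect (fun i : ℕ => ((i : ℝ) + 1) ^ r) (2 * y)]
    rfl
  have h3 : ∑ _i ∈ Finset.range (2 * y), (2 * (y : ℝ) + 1) ^ r ≤
      ∑ i ∈ Finset.range (2 * y), (((i : ℝ) + 1) ^ r + (((2 * y - 1 - i : ℕ) : ℝ) + 1) ^ r) := by
    refine Finset.sum_le_sum fun i hi => ?_
    rw [Finset.mem_range] at hi
    have h4 : (2 * (y : ℝ) + 1) = ((i : ℝ) + 1) + (((2 * y - 1 - i : ℕ) : ℝ) + 1) := by
      have h5 : i + (2 * y - 1 - i) + 1 = 2 * y := by omega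
      have h6 : (i : ℝ) + ((2 * y - 1 - i : ℕ) : ℝ) + 1 = 2 * (y : ℝ) := by exact_mod_cast h5
      linarith
    rw [h4]
    exact Real.rpow_add_le_add_rpow (by positivity) (by positivity) h0.le h1
  rw [Finset.sum_const, Finset.card_range, nsmul_eq_mul] at h3
  push_cast at h3
  linarith

theorem up (r : ℝ) (h0 : 0 < r) (h1 : r ≤ 1) (y k : ℕ) (hk : 2 * y ≤ k) :
    ((k : ℝ) - y) * (2 * (y : ℝ) + 1) ^ r ≤ S k r := by
  induction k, hk using Nat.le_induction with
  | base =>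
    have := base_le r h0 h1 y
    push_cast
    linarith
  | succ k hk ih =>
    rw [S_succ]
    have h2 : (2 * (y : ℝ) + 1) ^ r ≤ ((k : ℝ) + 1) ^ r := by
      refine Real.rpow_le_rpow (by positivity) ?_ h0.le
      have : (2 * (y : ℝ)) ≤ k := by exact_mod_cast hk
      linarith
    push_cast
    linarith

theorem down (r : ℝ) (h0 : 0 < r) (h1 : r ≤ 1) (y d k : ℕ) (hk : k + d = 2 * y) :
    ((k : ℝ) - y) * (2 * (y : ℝ) + 1) ^ r ≤ S k r := by
  induction d generalizing k with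
  | zero => exact up r h0 h1 y k (by omega)
  | succ d ih =>
    have h2 := ih (k + 1) (by omega)
    rw [S_succ] at h2
    have h3 : ((k : ℝ) + 1) ^ r ≤ (2 * (y : ℝ) + 1) ^ r := by
      refine Real.rpow_le_rpow (by positivity) ?_ h0.le
      have : (k : ℝ) ≤ 2 * (y : ℝ) := by exact_mod_cast (by omega : k ≤ 2 * y)
      linarith
    push_cast at h2
    linarith

theorem small : S_small := by
  intro r y k h0 h1 _
  unfold G
  refine div_le_one_of_le₀ ?_ ?_
  · rw [mul_comm]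
    rcases le_total (2 * y) k with h | h
    · exact up r h0 h1 y k h
    · exact down r h0 h1 y (2 * y - k) k (by omega)
  · unfold S
    exact Finset.sum_nonneg fun i _ => by positivity

end Q220.MH_SMALL
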