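import Mathlib

/-!
Degree sets of quadratic affine invariant properties: helper lemmas for S14999.
-/

set_option autoImplicit false

namespace Q220.QuadDeg

open Finset
open scoped Classical

/-- The degree set: `0`, powers of two, and `2^i + 2^j` with `i < j < t` not cyclically adjacent. -/
noncomputable def D (t : ℕ) : Finset ℕ :=
  (range (2 ^ t)).filter fun d => d = 0 ∨ (∃ i < t, d = 2 ^ i) ∨
    ∃ i j, i < j ∧ j < t ∧ j ≠ i + 1 ∧ ¬ (i = 0 ∧ j = t - 1) ∧ d = 2 ^ i + 2 ^ j

theorem two_pow_add_lt {i j t : ℕ} (hij : i < j) (hj : j < t) : 2 ^ i + 2 ^ j < 2 ^ t := by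
  have h1 : 2 ^ i < 2 ^ j := Nat.pow_lt_pow_right (by norm_num) hij
  have h2 : 2 ^ (j + 1) ≤ 2 ^ t := Nat.pow_le_pow_right (by norm_num) hj
  rw [pow_succ] at h2
  omega

theorem mem_D {t d : ℕ} (ht : 1 ≤ t) : d ∈ D t ↔ d = 0 ∨ (∃ i < t, d = 2 ^ i) ∨
    ∃ i j, i < j ∧ j < t ∧ j ≠ i + 1 ∧ ¬ (i = 0 ∧ j = t - 1) ∧ d = 2 ^ i + 2 ^ j := by
  unfold D
  rw [mem_filter, mem_range]
  constructor
  · exact fun h => h.2
  · intro h
    refine ⟨?_, h⟩
    rcases h with rfl | ⟨i, hi, rfl⟩ | ⟨i, j, hij, hj, -, -, rfl⟩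
    · positivity
    · exact Nat.pow_lt_pow_right (by norm_num) hi
    · exact two_pow_add_lt hij hj

theorem digsum_two_mul (n : ℕ) : (Nat.digits 2 (2 * n)).sum = (Nat.digits 2 n).sum := by
  rcases Nat.eq_zero_or_pos n with rfl | hn
  · simp
  · rw [Nat.digits_def' (by norm_num) (by omega)]
    simp

theorem digsum_two_mul_add_one (n : ℕ) :
    (Nat.digits 2 (2 * n + 1)).sum = 1 + (Nat.digits 2 n).sum := by
  rw [Nat.digits_def' (by norm_num) (by omega)]
  have h1 : (2 * n + 1) % 2 = 1 := by omega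
  have h2 : (2 * n + 1) / 2 = n := by omega
  rw [h1, h2]
  simp

theorem digsum_pow_mul (i n : ℕ) : (Nat.digits 2 (2 ^ i * n)).sum = (Nat.digits 2 n).sum := by
  induction i with
  | zero => simp
  | succ i ih => rw [pow_succ, mul_assoc, mul_left_comm, digsum_two_mul, ih]

theorem digsum_pow (i : ℕ) : (Nat.digits 2 (2 ^ i)).sum = 1 := by
  have := digsum_pow_mul i 1
  rw [mul_one] at this
  rw [this]; simp

theorem digsum_two_pow_add {i j : ℕ} (hij : i < j) : (Nat.digits 2 (2 ^ i + 2 ^ j)).sum = 2 := by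
  obtain ⟨k, rfl⟩ : ∃ k, j = i + (k + 1) := ⟨j - i - 1, by omega⟩
  have : 2 ^ i + 2 ^ (i + (k + 1)) = 2 ^ i * (2 * 2 ^ k + 1) := by ring
  rw [this, digsum_pow_mul, digsum_two_mul_add_one, digsum_pow]

theorem testBit_two_pow_add {i j : ℕ} (hij : i < j) (n : ℕ) :
    (2 ^ i + 2 ^ j).testBit n = true ↔ n = i ∨ n = j := by
  have h1 : 2 ^ i + 2 ^ j = 2 ^ j * 1 ||| 2 ^ i := by
    rw [← Nat.two_pow_add_eq_or_of_lt (Nat.pow_lt_pow_right (by norm_num) hij)]
    ring
  rw [h1, Nat.testBit_or, mul_one, Nat.testBit_two_pow, Nat.testBit_two_pow]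
  simp only [Bool.or_eq_true, decide_eq_true_eq]
  constructor
  · rintro (h | h)
    · exact Or.inr h.symm
    · exact Or.inl h.symm
  · rintro (h | h)
    · exact Or.inr h.symm
    · exact Or.inl h.symm

theorem weight_le {t d : ℕ} (ht : 1 ≤ t) (hd : d ∈ D t) : d < 2 ^ t ∧ (Nat.digits 2 d).sum ≤ 2 := by
  refine ⟨mem_range.1 (mem_filter.1 hd).1, ?_⟩
  rcases (mem_D ht).1 hd with rfl | ⟨i, hi, rfl⟩ | ⟨i, j, hij, hj, -, -, rfl⟩
  · simp
  · rw [digsum_pow]; norm_num
  · rw [digsum_two_pow_add hij]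

theorem three_notMem {t : ℕ} (ht : 1 ≤ t) : 3 ∉ D t := by
  intro h
  rcases (mem_D ht).1 h with h | ⟨i, -, h⟩ | ⟨i, j, hij, -, hne, -, h⟩
  · omega
  · rcases i with _ | i
    · simp at h
    · rw [pow_succ] at h; omega
  · rcases j with _ | j
    · omega
    · rcases i with _ | i
      · rw [pow_succ, pow_zero] at h
        have h2 : 2 ^ j = 2 ^ 0 := by rw [pow_zero]; omega
        have := Nat.pow_right_injective (le_refl 2) h2
        omega
      · rw [pow_succ, pow_succ] at h
        omega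

theorem double_mem {t d : ℕ} (ht : 3 ≤ t) (hd : d ∈ D t) (h0 : d ≠ 0) :
    (2 * d - 1) % (2 ^ t - 1) + 1 ∈ D t := by
  have h8 : 2 ^ 3 ≤ 2 ^ t := Nat.pow_le_pow_right (by norm_num) ht
  have ht1 : 2 ^ t = 2 * 2 ^ (t - 1) := by rw [← pow_succ']; congr 1; omega
  rw [mem_D (by omega)]
  rcases (mem_D (by omega)).1 hd with rfl | ⟨i, hi, rfl⟩ | ⟨i, j, hij, hj, hne, hne2, rfl⟩
  · exact absurd rfl h0
  · right; left
    rcases Nat.lt_or_ge (i + 1) t with h | h
    · refine ⟨i + 1, h, ?_⟩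
      have h1 : 2 ^ (i + 1) < 2 ^ t := Nat.pow_lt_pow_right (by norm_num) h
      have h2 : 0 < 2 ^ i := by positivity
      rw [pow_succ] at h1 ⊢
      rw [Nat.mod_eq_of_lt (by omega)]
      omega
    · have : i = t - 1 := by omega
      subst this
      refine ⟨0, by omega, ?_⟩
      rw [← ht1, Nat.mod_self]
      simp
  · rcases Nat.lt_or_ge (j + 1) t with h | h
    · right; right
      refine ⟨i + 1, j + 1, by omega, h, by omega, by omega, ?_⟩
      have h1 := two_pow_add_lt (i := i + 1) (j := j + 1) (by omega) h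
      have h2 : 0 < 2 ^ i := by positivity
      rw [pow_succ, pow_succ] at h1 ⊢
      rw [Nat.mod_eq_of_lt (by omega)]
      omega
    · have : j = t - 1 := by omega
      subst this
      right; right
      refine ⟨0, i + 1, by omega, by omega, ?_, by omega, ?_⟩
      · intro hi
        apply hne2
        exact ⟨by omega, rfl⟩
      · have h1 : 2 * (2 ^ i + 2 ^ (t - 1)) - 1 = 2 ^ (i + 1) + (2 ^ t - 1) := by
          rw [pow_succ, ht1]
          have h2 : 0 < 2 ^ (t - 1) := by positivity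
          omega
        have h3 : 2 ^ (i + 1) < 2 ^ t - 1 := by
          have : 2 ^ (i + 1) ≤ 2 ^ (t - 1) := Nat.pow_le_pow_right (by norm_num) (by omega)
          omega
        rw [h1, Nat.add_mod_right, Nat.mod_eq_of_lt h3]
        ring

theorem eq_of_shadow {i j e : ℕ} (hij : i < j)
    (h : ∀ n, e.testBit n = true → (2 ^ i + 2 ^ j).testBit n = true) :
    e = 0 ∨ e = 2 ^ i ∨ e = 2 ^ j ∨ e = 2 ^ i + 2 ^ j := by
  have hn : ∀ n, n ≠ i → n ≠ j → e.testBit n = false := by
    intro n h1 h2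
    by_contra hc
    have := (testBit_two_pow_add hij n).1 (h n (by simpa using hc))
    omega
  have hij' : i ≠ j := by omega
  rcases hi : e.testBit i with _ | _ <;> rcases hj : e.testBit j with _ | _
  · left
    apply Nat.eq_of_testBit_eq
    intro n
    rw [Nat.zero_testBit]
    by_cases h1 : n = i
    · rw [h1, hi]
    · by_cases h2 : n = j
      · rw [h2, hj]
      · exact hn n h1 h2
  · right; right; left
    apply Nat.eq_of_testBit_eq
    intro n
    rw [Nat.testBit_two_pow]
    by_cases h1 : n = i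
    · rw [h1, hi]; simp [hij'.symm]
    · by_cases h2 : n = j
      · rw [h2, hj]; simp
      · rw [hn n h1 h2]; simp [Ne.symm h2]
  · right; left
    apply Nat.eq_of_testBit_eq
    intro n
    rw [Nat.testBit_two_pow]
    by_cases h1 : n = i
    · rw [h1, hi]; simp
    · by_cases h2 : n = j
      · rw [h2, hj]; simp [hij']
      · rw [hn n h1 h2]; simp [Ne.symm h1]
  · right; right; right
    apply Nat.eq_of_testBit_eq
    intro n
    rw [Bool.eq_iff_iff, testBit_two_pow_add hij]
    by_cases h1 : n = i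
    · rw [h1, hi]; simp
    · by_cases h2 : n = j
      · rw [h2, hj]; simp
      · rw [hn n h1 h2]; simp [h1, h2]

theorem eq_of_shadow_one {i e : ℕ}
    (h : ∀ n, e.testBit n = true → (2 ^ i).testBit n = true) : e = 0 ∨ e = 2 ^ i := by
  have hn : ∀ n, n ≠ i → e.testBit n = false := by
    intro n h1
    by_contra hc
    have := h n (by simpa using hc)
    rw [Nat.testBit_two_pow] at this
    simp at this
    omega
  rcases hi : e.testBit i with _ | _
  · left
    apply Nat.eq_of_testBit_eq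
    intro n
    rw [Nat.zero_testBit]
    by_cases h1 : n = i
    · rw [h1, hi]
    · exact hn n h1
  · right
    apply Nat.eq_of_testBit_eq
    intro n
    rw [Nat.testBit_two_pow]
    by_cases h1 : n = i
    · rw [h1, hi]; simp
    · rw [hn n h1]; simp [Ne.symm h1]

theorem shadow_mem {t d e : ℕ} (ht : 1 ≤ t) (hd : d ∈ D t)
    (h : ∀ i : ℕ, e.testBit i = true → d.testBit i = true) : e ∈ D t := by
  rw [mem_D ht]
  rcases (mem_D ht).1 hd with rfl | ⟨i, hi, rfl⟩ | ⟨i, j, hij, hj, hne, hne2, rfl⟩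
  · left
    apply Nat.eq_of_testBit_eq
    intro n
    rw [Nat.zero_testBit]
    by_contra hc
    have := h n (by simpa using hc)
    simp at this
  · rcases eq_of_shadow_one h with rfl | rfl
    · left; rfl
    · right; left; exact ⟨i, hi, rfl⟩
  · rcases eq_of_shadow hij h with rfl | rfl | rfl | rfl
    · left; rfl
    · right; left; exact ⟨i, by omega, rfl⟩
    · right; left; exact ⟨j, hj, rfl⟩
    · right; right; exact ⟨i, j, hij, hj, hne, hne2, rfl⟩

end Q220.QuadDeg
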