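import Mathlib
import Pool.Agent.Q220.QuadDeg

/-!
Non-characterizability by k points of the quadratic property with degree set `D t`.
-/

set_option autoImplicit false

namespace Q220.QuadDeg

open Finset

variable {F : Type*} [Field F] [Finite F] [Algebra (ZMod 2) F]

/-- `g` is a combination of the monomials `x ^ d`, `d ∈ D t`. -/
def InP (t : ℕ) (g : F → F) : Prop := ∃ c : ℕ → F, ∀ x : F, g x = ∑ d ∈ D t, c d * x ^ d

omit [Finite F] [Algebra (ZMod 2) F] in
theorem InP.zero {t : ℕ} : InP t (fun _ : F => (0 : F)) :=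
  ⟨fun _ => 0, fun x => by simp⟩

omit [Finite F] [Algebra (ZMod 2) F] in
theorem InP.add {t : ℕ} {g h : F → F} (hg : InP t g) (hh : InP t h) :
    InP t (fun x => g x + h x) := by
  obtain ⟨c, hc⟩ := hg
  obtain ⟨e, he⟩ := hh
  refine ⟨fun d => c d + e d, fun x => ?_⟩
  simp only [hc, he, add_mul, sum_add_distrib]

omit [Finite F] [Algebra (ZMod 2) F] in
theorem InP.smul {t : ℕ} {g : F → F} (a : F) (hg : InP t g) :
    InP t (fun x => a * g x) := by
  obtain ⟨c, hc⟩ := hg
  refine ⟨fun d => a * c d, fun x => ?_⟩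
  simp only [hc, mul_sum, mul_assoc]

omit [Finite F] [Algebra (ZMod 2) F] in
theorem InP.mono {t d : ℕ} (hd : d ∈ D t) (a : F) : InP t (fun x => a * x ^ d) := by
  classical
  refine ⟨fun e => if e = d then a else 0, fun x => ?_⟩
  rw [Finset.sum_eq_single d]
  · simp
  · intro b _ hb
    simp [hb]
  · exact fun h => absurd hd h

omit [Finite F] [Algebra (ZMod 2) F] in
theorem InP.sum {t : ℕ} {ι : Type*} (s : Finset ι) (g : ι → F → F) (h : ∀ i ∈ s, InP t (g i)) :
    InP t (fun x => ∑ i ∈ s, g i x) := by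
  classical
  induction s using Finset.induction_on with
  | empty => simpa using InP.zero
  | insert a s ha ih =>
    simp only [sum_insert ha]
    exact (h a (mem_insert_self a s)).add (ih fun i hi => h i (mem_insert_of_mem hi))

omit [Algebra (ZMod 2) F] in
theorem pow_card' {t : ℕ} (hcard : Nat.card F = 2 ^ t) (x : F) : x ^ (2 ^ t) = x := by
  have := Fintype.ofFinite F
  rw [← hcard, Nat.card_eq_fintype_card]
  exact FiniteField.pow_card x

theorem trace_eq {t : ℕ} (ht : Module.finrank (ZMod 2) F = t) (x : F) :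
    algebraMap (ZMod 2) F (Algebra.trace (ZMod 2) F x) = ∑ i ∈ range t, x ^ (2 ^ i) := by
  rw [FiniteField.algebraMap_trace_eq_sum_pow, ht]
  simp

theorem trace_nondeg {c : F} (h : ∀ b : F, Algebra.trace (ZMod 2) F (b * c) = 0) : c = 0 := by
  have := (traceForm_nondegenerate (ZMod 2) F).1 c
  apply this
  intro b
  rw [Algebra.traceForm_apply, mul_comm]
  exact h b

omit [Algebra (ZMod 2) F] in
/-- the power `x ^ (2 ^ i + 2 ^ (i + s))` reduces to an exponent in `D t`. -/
theorem exists_exp {t : ℕ} (ht : 3 ≤ t) (hcard : Nat.card F = 2 ^ t) {s i : ℕ} (hs : s < t)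
    (h1 : s ≠ 1) (h2 : s ≠ t - 1) (hi : i < t) :
    ∃ d ∈ D t, ∀ x : F, x ^ ((1 + 2 ^ s) * 2 ^ i) = x ^ d := by
  have e0 : (1 + 2 ^ s) * 2 ^ i = 2 ^ i + 2 ^ (i + s) := by ring
  rcases Nat.eq_zero_or_pos s with rfl | hs0
  · rcases Nat.lt_or_ge (i + 1) t with h | h
    · refine ⟨2 ^ (i + 1), (mem_D (by omega)).2 (Or.inr (Or.inl ⟨_, h, rfl⟩)), fun x => ?_⟩
      rw [e0]; congr 1; ring
    · have hi' : i + 1 = t := by omega
      refine ⟨1, (mem_D (by omega)).2 (Or.inr (Or.inl ⟨0, by omega, by simp⟩)), fun x => ?_⟩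
      have : (1 + 2 ^ 0) * 2 ^ i = 2 ^ t := by rw [← hi']; ring
      rw [this, pow_card' hcard, pow_one]
  · rcases Nat.lt_or_ge (i + s) t with h | h
    · refine ⟨2 ^ i + 2 ^ (i + s), (mem_D (by omega)).2 (Or.inr (Or.inr
        ⟨i, i + s, by omega, h, by omega, by omega, rfl⟩)), fun x => ?_⟩
      rw [e0]
    · obtain ⟨m, hm⟩ : ∃ m, i + s = t + m := ⟨i + s - t, by omega⟩
      refine ⟨2 ^ m + 2 ^ i, (mem_D (by omega)).2 (Or.inr (Or.inr
        ⟨m, i, by omega, hi, by omega, by omega, rfl⟩)), fun x => ?_⟩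
      rw [e0, hm, pow_add x, pow_add x, pow_add 2 t m, pow_mul x (2 ^ t), pow_card' hcard, mul_comm]

theorem InP_trace {t : ℕ} (ht : 3 ≤ t) (hcard : Nat.card F = 2 ^ t)
    (hrank : Module.finrank (ZMod 2) F = t) {s : ℕ} (hs : s < t)
    (h1 : s ≠ 1) (h2 : s ≠ t - 1) (b : F) :
    InP t (fun x : F => algebraMap (ZMod 2) F (Algebra.trace (ZMod 2) F (b * x ^ (1 + 2 ^ s)))) := by
  have : (fun x : F => algebraMap (ZMod 2) F (Algebra.trace (ZMod 2) F (b * x ^ (1 + 2 ^ s)))) =
      fun x : F => ∑ i ∈ range t, b ^ (2 ^ i) * x ^ ((1 + 2 ^ s) * 2 ^ i) := by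
    funext x
    rw [trace_eq hrank]
    exact sum_congr rfl fun i _ => by rw [mul_pow, ← pow_mul]
  rw [this]
  refine InP.sum (range t) (fun i x => b ^ (2 ^ i) * x ^ ((1 + 2 ^ s) * 2 ^ i)) fun i hi => ?_
  obtain ⟨d, hd, hx⟩ := exists_exp ht hcard hs h1 h2 (mem_range.1 hi)
  have : (fun x : F => b ^ (2 ^ i) * x ^ ((1 + 2 ^ s) * 2 ^ i)) =
      fun x : F => b ^ (2 ^ i) * x ^ d := by
    funext x; rw [hx]
  rw [this]
  exact InP.mono hd _

open Polynomial in
theorem not_InP_cube {t : ℕ} (ht : 3 ≤ t) (hcard : Nat.card F = 2 ^ t)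
    (hrank : Module.finrank (ZMod 2) F = t) :
    ¬ InP t (fun x : F => algebraMap (ZMod 2) F (Algebra.trace (ZMod 2) F (x ^ 3))) := by
  classical
  have := Fintype.ofFinite F
  rintro ⟨c, hc⟩
  obtain ⟨u, rfl⟩ : ∃ u, t = u + 3 := ⟨t - 3, by omega⟩
  set p : F[X] := ∑ i ∈ range (u + 2), X ^ (3 * 2 ^ i) + X ^ (1 + 2 ^ (u + 2)) with hp
  set q : F[X] := ∑ d ∈ D (u + 3), C (c d) * X ^ d with hq
  have hpd : p.degree < (2 ^ (u + 3) : ℕ) := by
    refine lt_of_le_of_lt (degree_add_le _ _) (max_lt ?_ ?_)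
    · refine lt_of_le_of_lt (degree_sum_le _ _) ?_
      rw [Finset.sup_lt_iff (by exact WithBot.bot_lt_coe _)]
      intro i hi
      rw [degree_X_pow]
      have h1 : 2 ^ i ≤ 2 ^ (u + 1) := Nat.pow_le_pow_right (by norm_num) (by
        have := mem_range.1 hi; omega)
      have h2 : 2 ^ (u + 3) = 4 * 2 ^ (u + 1) := by ring
      have h3 : 0 < 2 ^ (u + 1) := by positivity
      exact_mod_cast (by omega : 3 * 2 ^ i < 2 ^ (u + 3))
    · rw [degree_X_pow]
      have h2 : 2 ^ (u + 3) = 2 * 2 ^ (u + 2) := by ring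
      have h3 : 2 ^ 1 ≤ 2 ^ (u + 2) := Nat.pow_le_pow_right (by norm_num) (by omega)
      exact_mod_cast (by omega : 1 + 2 ^ (u + 2) < 2 ^ (u + 3))
  have hqd : q.degree < (2 ^ (u + 3) : ℕ) := by
    refine lt_of_le_of_lt (degree_sum_le _ _) ?_
    rw [Finset.sup_lt_iff (by exact WithBot.bot_lt_coe _)]
    intro d hd
    refine lt_of_le_of_lt (degree_C_mul_X_pow_le _ _) ?_
    exact_mod_cast (weight_le (by omega) hd).1
  have hpq : p = q := by
    refine Polynomial.eq_of_degree_sub_lt_of_eval_finset_eq (Finset.univ : Finset F) ?_ ?_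
    · rw [Finset.card_univ, ← Nat.card_eq_fintype_card, hcard]
      exact lt_of_le_of_lt (degree_sub_le _ _) (max_lt hpd hqd)
    · intro x _
      have h1 := hc x
      simp only at h1
      rw [trace_eq hrank, sum_range_succ] at h1
      rw [hp, hq]
      simp only [eval_add, eval_finsetSum, eval_pow, eval_X, eval_mul, eval_C]
      rw [← h1]
      congr 1
      · exact sum_congr rfl fun i _ => by rw [← pow_mul]
      · rw [← pow_mul]
        have : 3 * 2 ^ (u + 2) = 2 ^ (u + 3) + 2 ^ (u + 2) := by ring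
        rw [this, pow_add x (2 ^ (u + 3)), pow_card' hcard, pow_add, pow_one]
  have h3p : p.coeff 3 = 1 := by
    rw [hp, coeff_add, finsetSum_coeff]
    have : ∀ i ∈ range (u + 2), (X ^ (3 * 2 ^ i) : F[X]).coeff 3 = if i = 0 then 1 else 0 := by
      intro i _
      rw [coeff_X_pow]
      rcases i with _ | i
      · simp
      · have h3 : 0 < 2 ^ i := by positivity
        rw [if_neg, if_neg]
        · omega
        · rw [pow_succ]; omega
    rw [sum_congr rfl this, coeff_X_pow, if_neg]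
    · simp
    · have h3 : 2 ^ 2 ≤ 2 ^ (u + 2) := Nat.pow_le_pow_right (by norm_num) (by omega)
      omega
  have h3q : q.coeff 3 = 0 := by
    rw [hq, finsetSum_coeff]
    refine sum_eq_zero fun d hd => ?_
    rw [coeff_C_mul_X_pow, if_neg]
    rintro rfl
    exact three_notMem (by omega) hd
  rw [hpq, h3q] at h3p
  exact zero_ne_one h3p

omit [Finite F] [Algebra (ZMod 2) F] in
theorem cube_inj {t : ℕ} (hodd : Odd t) (hcard : Nat.card F = 2 ^ t) {x y : F}
    (hx : x ≠ 0) (hy : y ≠ 0) (h : x ^ 3 = y ^ 3) : x = y := by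
  have hc : (Nat.card Fˣ).Coprime 3 := by
    rw [Nat.card_units, hcard]
    rw [Nat.coprime_comm, Nat.Prime.coprime_iff_not_dvd Nat.prime_three]
    obtain ⟨m, rfl⟩ := hodd
    intro hd
    have h4 : 4 ^ m % 3 = 1 := by
      rw [Nat.pow_mod]; simp
    have h5 : 2 ^ (2 * m + 1) = 2 * 4 ^ m := by
      rw [pow_succ, pow_mul]; norm_num; ring
    rw [h5] at hd
    omega
  have hb := (Nat.Coprime.pow_left_bijective (G := Fˣ) hc).1
  have := @hb (Units.mk0 x hx) (Units.mk0 y hy) (by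
    apply Units.ext
    simpa using h)
  simpa using congrArg Units.val this

theorem core {t k : ℕ} (ht : 3 ≤ t) (hodd : Odd t) (hcard : Nat.card F = 2 ^ t)
    (hrank : Module.finrank (ZMod 2) F = t) (hk : k + 2 ≤ t) (α : Fin k → F)
    (w : Fin k → ZMod 2)
    (h0 : ∀ s, s < t → s ≠ 1 → s ≠ t - 1 →
      ∑ i, algebraMap (ZMod 2) F (w i) * α i ^ (1 + 2 ^ s) = 0) :
    ∑ i, algebraMap (ZMod 2) F (w i) * α i ^ 3 = 0 := by
  have : CharP F 2 := charP_of_injective_algebraMap (algebraMap (ZMod 2) F).injective 2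
  by_contra hc1
  set a : Fin k → F := fun i => algebraMap (ZMod 2) F (w i) with ha
  have hasq : ∀ i, a i ^ 2 = a i := by
    intro i
    rw [ha]
    simp only
    rw [← map_pow]
    congr 1
    generalize w i = z
    revert z
    decide
  set c1 : F := ∑ i, a i * α i ^ 3 with hc1def
  set c2 : F := ∑ i, a i * α i ^ (1 + 2 ^ (t - 1)) with hc2def
  have hc2 : c2 ^ 2 = c1 := by
    rw [hc2def, hc1def, CharTwo.sum_sq]
    refine sum_congr rfl fun i _ => ?_
    rw [mul_pow, hasq, ← pow_mul]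
    have h1 : (1 + 2 ^ (t - 1)) * 2 = 2 + 2 ^ t := by
      have : 2 ^ t = 2 ^ (t - 1) * 2 := by rw [← pow_succ]; congr 1; omega
      rw [this]; ring
    rw [h1, pow_add, pow_card' hcard]
    ring
  let T : F →ₗ[ZMod 2] (Fin k → ZMod 2) :=
    LinearMap.pi fun i => (Algebra.trace (ZMod 2) F).comp (LinearMap.mulLeft (ZMod 2) (α i))
  have hT : ∀ y i, T y i = Algebra.trace (ZMod 2) F (α i * y) := fun y i => rfl
  have hker : ∀ y, T y = 0 → y ≠ 0 → c1 * y ^ 3 = 1 := by
    intro y hy hy0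
    have h1 : ∑ i, a i * (algebraMap (ZMod 2) F (Algebra.trace (ZMod 2) F (α i * y))) * α i = 0 := by
      refine sum_eq_zero fun i _ => ?_
      have := congrFun hy i
      rw [hT] at this
      rw [this]; simp
    have h2 : ∑ i, a i * (algebraMap (ZMod 2) F (Algebra.trace (ZMod 2) F (α i * y))) * α i =
        ∑ s ∈ range t, (∑ i, a i * α i ^ (1 + 2 ^ s)) * y ^ (2 ^ s) := by
      simp_rw [trace_eq hrank, mul_sum, sum_mul]
      rw [sum_comm]
      refine sum_congr rfl fun s _ => sum_congr rfl fun i _ => ?_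
      rw [mul_pow, pow_add, pow_one]
      ring
    have h3 : ∑ s ∈ range t, (∑ i, a i * α i ^ (1 + 2 ^ s)) * y ^ (2 ^ s) =
        c1 * y ^ 2 + c2 * y ^ (2 ^ (t - 1)) := by
      have hsub : ({1, t - 1} : Finset ℕ) ⊆ range t := by
        intro s hs
        rw [mem_insert, mem_singleton] at hs
        rw [mem_range]
        omega
      rw [← sum_subset hsub]
      · rw [sum_pair (by omega)]
        norm_num [hc1def, hc2def]
      · intro s hs hs'
        rw [mem_insert, mem_singleton, not_or] at hs'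
        rw [h0 s (mem_range.1 hs) hs'.1 hs'.2, zero_mul]
    rw [h2, h3] at h1
    have h4 : (c1 * y ^ 2 + c2 * y ^ (2 ^ (t - 1))) ^ 2 = c1 ^ 2 * y ^ 4 + c1 * y := by
      rw [CharTwo.add_sq, mul_pow, mul_pow, hc2, ← pow_mul, ← pow_mul]
      have : 2 ^ (t - 1) * 2 = 2 ^ t := by rw [← pow_succ]; congr 1; omega
      rw [this, pow_card' hcard]
    rw [h1] at h4
    have h5 : c1 * y * (c1 * y ^ 3 + 1) = 0 := by
      have : c1 * y * (c1 * y ^ 3 + 1) = c1 ^ 2 * y ^ 4 + c1 * y := by ring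
      rw [this, ← h4]; simp
    rcases mul_eq_zero.1 h5 with h6 | h6
    · rcases mul_eq_zero.1 h6 with h7 | h7
      · exact absurd h7 hc1
      · exact absurd h7 hy0
    · exact (CharTwo.add_eq_zero.1 h6)
  have hfin : Module.finrank (ZMod 2) (LinearMap.ker T) ≤ 1 := by
    by_cases hz : ∀ y : LinearMap.ker T, y = 0
    · apply finrank_le_one (0 : LinearMap.ker T)
      intro y
      exact ⟨0, by rw [hz y]; simp⟩
    · push Not at hz
      obtain ⟨v, hv⟩ := hz
      apply finrank_le_one v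
      intro y
      by_cases hy : y = 0
      · exact ⟨0, by rw [hy]; simp⟩
      · refine ⟨1, ?_⟩
        rw [one_smul]
        apply Subtype.ext
        have hv0 : (v : F) ≠ 0 := fun h => hv (Subtype.ext h)
        have hy0 : (y : F) ≠ 0 := fun h => hy (Subtype.ext h)
        have h1 := hker v (LinearMap.mem_ker.1 v.2) hv0
        have h2 := hker y (LinearMap.mem_ker.1 y.2) hy0
        apply cube_inj hodd hcard hv0 hy0
        exact mul_left_cancel₀ hc1 (h1.trans h2.symm)
  have h1 := LinearMap.finrank_range_add_finrank_ker T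
  have h2 : Module.finrank (ZMod 2) (LinearMap.range T) ≤ k := by
    have := Submodule.finrank_le (LinearMap.range T)
    simpa using this
  omega

theorem main {t k : ℕ} (ht : 3 ≤ t) (hodd : Odd t) (hcard : Nat.card F = 2 ^ t)
    (hrank : Module.finrank (ZMod 2) F = t) (hk : k + 2 ≤ t) :
    ¬ ∃ C : Set ((Fin k → F) × Set (Fin k → ZMod 2)),
      ∀ f : F → ZMod 2,
        ((∃ c : ℕ → F, ∀ x : F, algebraMap (ZMod 2) F (f x) = ∑ d ∈ D t, c d * x ^ d) ↔
          ∀ p ∈ C, (fun i => f (p.1 i)) ∈ p.2) := by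
  rintro ⟨C, hC⟩
  set f0 : F → ZMod 2 := fun x => Algebra.trace (ZMod 2) F (x ^ 3) with hf0
  have hn : ¬ ∀ p ∈ C, (fun i => f0 (p.1 i)) ∈ p.2 := by
    intro h
    exact not_InP_cube ht hcard hrank ((hC f0).2 h)
  push Not at hn
  obtain ⟨p, hpC, hp⟩ := hn
  let W : Submodule (ZMod 2) (Fin k → ZMod 2) :=
    { carrier := {v | ∃ f : F → ZMod 2, InP t (fun x => algebraMap (ZMod 2) F (f x)) ∧
        ∀ i, f (p.1 i) = v i}
      zero_mem' := ⟨fun _ => 0, by simpa using InP.zero, fun i => rfl⟩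
      add_mem' := by
        rintro u v ⟨f, hf, hfu⟩ ⟨g, hg, hgv⟩
        refine ⟨fun x => f x + g x, ?_, fun i => ?_⟩
        · simpa using hf.add hg
        · rw [Pi.add_apply, ← hfu, ← hgv]
      smul_mem' := by
        rintro r v ⟨f, hf, hfv⟩
        refine ⟨fun x => r * f x, ?_, fun i => ?_⟩
        · simpa using hf.smul (algebraMap (ZMod 2) F r)
        · rw [Pi.smul_apply, ← hfv, smul_eq_mul] }
  have hW : (fun i => f0 (p.1 i)) ∉ W := by
    rintro ⟨f, hf, hfe⟩
    apply hp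
    have := (hC f).1 hf p hpC
    have he : (fun i => f (p.1 i)) = fun i => f0 (p.1 i) := funext hfe
    rwa [he] at this
  obtain ⟨φ, hφ, hφW⟩ := Submodule.exists_le_ker_of_notMem hW
  classical
  set w : Fin k → ZMod 2 := fun i => φ (fun j => if i = j then 1 else 0) with hw
  have hφe : ∀ v : Fin k → ZMod 2, φ v = ∑ i, v i * w i := by
    intro v
    rw [LinearMap.pi_apply_eq_sum_univ φ v]
    simp [hw]
  have htr : ∀ (b : F) (g : F → F), φ (fun i => Algebra.trace (ZMod 2) F (b * g (p.1 i))) =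
      Algebra.trace (ZMod 2) F (b * ∑ i, algebraMap (ZMod 2) F (w i) * g (p.1 i)) := by
    intro b g
    rw [hφe, mul_sum, map_sum]
    refine sum_congr rfl fun i _ => ?_
    have : b * (algebraMap (ZMod 2) F (w i) * g (p.1 i)) = w i • (b * g (p.1 i)) := by
      rw [Algebra.smul_def]; ring
    rw [this, map_smul, smul_eq_mul, mul_comm]
  have h0 : ∀ s, s < t → s ≠ 1 → s ≠ t - 1 →
      ∑ i, algebraMap (ZMod 2) F (w i) * p.1 i ^ (1 + 2 ^ s) = 0 := by
    intro s hs h1 h2
    apply trace_nondeg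
    intro b
    rw [← htr b (fun x => x ^ (1 + 2 ^ s))]
    have hmem : (fun i => Algebra.trace (ZMod 2) F (b * p.1 i ^ (1 + 2 ^ s))) ∈ W :=
      ⟨fun x => Algebra.trace (ZMod 2) F (b * x ^ (1 + 2 ^ s)),
        InP_trace ht hcard hrank hs h1 h2 b, fun i => rfl⟩
    exact LinearMap.mem_ker.1 (hφW hmem)
  have h3 := core ht hodd hcard hrank hk p.1 w h0
  apply hφ
  have := htr 1 (fun x => x ^ 3)
  simp only [one_mul] at this
  rw [hf0]
  simp only
  rw [this, h3, map_zero]

end Q220.QuadDeg
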